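import Pool.Agent.Lib.MP_93fb9a_gt.Exist4

set_option autoImplicit false

open UpperHalfPlane Module Pool.Agent.Lib.MP_93fb9a_gt
open scoped MatrixGroups

namespace Pool.Agent.Results.MP_93fb9a_gt.UniformAnosov

/-- There is a uniform neighbourhood of the zero section in which every oper has `Δ`-Anosov
holonomy: for every complex simple Lie algebra `𝔤`, with its Kostant slice `D`, there is `ε > 0`
such that for every cocompact Fuchsian group `Γ` (of every genus) and all holomorphic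
differentials `α i` in `H⁰(Γ \ ℍ, K^(m_i + 1))` of pointwise norm less than `ε`, the oper
`d + (f + ∑ α_i v_i) dz` has a holonomy representation, and each of its holonomy
representations is `Δ`-Anosov. -/
theorem result (𝔤 : Type*) [LieRing 𝔤] [LieAlgebra ℂ 𝔤] [FiniteDimensional ℂ 𝔤]
    [LieAlgebra.IsSimple ℂ 𝔤] (D : KostantSlice 𝔤) :
    ∃ ε : ℝ, 0 < ε ∧ ∀ Γ : Subgroup SL(2, ℝ), IsCocompactFuchsian Γ →
      ∀ α : Fin (LieAlgebra.rank ℂ 𝔤) → ℂ → ℂ,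
        (∀ i, IsDifferential Γ (D.m i + 1) (α i)) →
        (∀ i, ∀ z : ℍ, ptNorm (D.m i + 1) (α i) z < ε) →
        (∃ ρ : Γ →* (𝔤 ≃ₗ[ℂ] 𝔤), IsOperHolonomy D Γ α ρ) ∧
          ∀ ρ : Γ →* (𝔤 ≃ₗ[ℂ] 𝔤), IsOperHolonomy D Γ α ρ → IsDeltaAnosov ρ := by
  obtain ⟨ε, hε, h⟩ := isDeltaAnosov_of_small D
  exact ⟨ε, hε, fun Γ hΓ α hd hα =>
    ⟨exists_operHolonomy D Γ α hd, fun ρ hρ => h Γ hΓ α hα ρ hρ⟩⟩

end Pool.Agent.Results.MP_93fb9a_gt.UniformAnosov
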